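import Mathlib
import Pool.Agent.E8helper42.AZ.Stm2

/-!
# Statements `S_IC` and `S_W` of the project AZ
-/

set_option autoImplicit false

namespace Pool.Agent.E8helper31.AZ

open Matrix Pool.Agent.E8helper42.AZ

theorem theta_mulVec {R : Type} [CommRing R] {m n : ℕ} (θ : R → R)
    (hadd : ∀ a b, θ (a + b) = θ a + θ b) (h0 : θ 0 = 0) (hmul : ∀ a b, θ (a * b) = θ a * b + a * θ b)
    (M : Matrix (Fin m) (Fin n) R) (x : Fin n → R) :
    θ ∘ (M.mulVec x) = (M.map θ).mulVec x + M.mulVec (θ ∘ x) := by
  funext i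
  have hsum : ∀ (s : Finset (Fin n)) (f : Fin n → R), θ (∑ j ∈ s, f j) = ∑ j ∈ s, θ (f j) := by
    intro s f
    classical
    induction s using Finset.induction_on with
    | empty => rw [Finset.sum_empty, Finset.sum_empty, h0]
    | insert a s ha ih => rw [Finset.sum_insert ha, Finset.sum_insert ha, hadd, ih]
  simp only [Function.comp_apply, Matrix.mulVec, dotProduct, Pi.add_apply, Matrix.map_apply]
  rw [hsum, ← Finset.sum_add_distrib]
  exact Finset.sum_congr rfl fun j _ => hmul _ _

/-- companion matrices -/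
theorem iclem : S_IC := by
  intro n r hr F _ θF A hA w B hw hwB hdet
  classical
  have hthm : ∀ {m k : ℕ} (M : Matrix (Fin m) (Fin k) F) (x : Fin k → F),
      θF ∘ (M.mulVec x) = (M.map θF).mulVec x + M.mulVec (θF ∘ x) := by
    intro m k M x
    refine theta_mulVec θF (map_add θF) (map_zero θF) (fun a b => ?_) M x
    rw [Derivation.leibniz, smul_eq_mul, smul_eq_mul]
    ring
  -- the connection
  have hnab : ∀ x : Fin r → F, w.mulVec (θF ∘ x + B.mulVec x) =
      θF ∘ (w.mulVec x) - A.mulVec (w.mulVec x) := by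
    intro x
    have e1 : w.map θF = A * w + w * B := by
      rw [← hwB]
      abel
    rw [hthm, e1, Matrix.add_mulVec, Matrix.mulVec_add]
    simp only [Matrix.mulVec_mulVec]
    abel
  have hnab2 : ∀ (x : Fin r → F) (i j : Fin n), (j : ℕ) = i + 1 →
      w.mulVec (θF ∘ x + B.mulVec x) i = θF (w.mulVec x i) - w.mulVec x j := by
    intro x i j hij
    rw [hnab, Pi.sub_apply, Function.comp_apply]
    congr 1
    rw [Matrix.mulVec, dotProduct, Finset.sum_eq_single j]
    · rw [hA i j (by have := j.2; omega), if_pos hij, one_mul]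
    · intro k _ hk
      rw [hA i k (by have := j.2; omega), if_neg, zero_mul]
      intro h
      exact hk (Fin.ext (h.trans hij.symm))
    · intro h
      exact absurd (Finset.mem_univ _) h
  let K : ℕ → Submodule F (Fin r → F) := fun j =>
    { carrier := {x | ∀ i : Fin n, (i : ℕ) < j → w.mulVec x i = 0}
      add_mem' := by
        intro x y hx hy i hi
        rw [Matrix.mulVec_add, Pi.add_apply, hx i hi, hy i hi, add_zero]
      zero_mem' := by
        intro i _
        rw [Matrix.mulVec_zero, Pi.zero_apply]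
      smul_mem' := by
        intro c x hx i hi
        rw [Matrix.mulVec_smul, Pi.smul_apply, hx i hi, smul_zero] }
  have hmem : ∀ j x, x ∈ K j ↔ ∀ i : Fin n, (i : ℕ) < j → w.mulVec x i = 0 := fun _ _ => Iff.rfl
  have hle : ∀ j, K (j + 1) ≤ K j := by
    intro j x hx i hi
    exact hx i (by omega)
  have hstep : ∀ j, j < n → K (j + 1) = K j → K j = ⊥ := by
    intro j hj heq
    have hst : ∀ x ∈ K j, θF ∘ x + B.mulVec x ∈ K j := by
      intro x hx i hi
      have hx' : x ∈ K (j + 1) := heq ▸ hx
      rw [hnab2 x i ⟨i + 1, by omega⟩ rfl, hx i hi, hx' ⟨i + 1, by omega⟩ (by simp; omega),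
        map_zero, sub_zero]
    have hall : ∀ m, ∀ x ∈ K j, ∀ i : Fin n, (i : ℕ) ≤ j + m → w.mulVec x i = 0 := by
      intro m
      induction m with
      | zero =>
        intro x hx i hi
        have hx' : x ∈ K (j + 1) := heq ▸ hx
        exact hx' i (by omega)
      | succ m ih =>
        intro x hx i hi
        by_cases hi2 : (i : ℕ) ≤ j + m
        · exact ih x hx i hi2
        · have e1 := hnab2 x ⟨j + m, by have := i.2; omega⟩ i (by simp; omega)
          rw [ih _ (hst x hx) ⟨j + m, by have := i.2; omega⟩ (by simp),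
            ih x hx ⟨j + m, by have := i.2; omega⟩ (by simp), map_zero, zero_sub] at e1
          exact neg_eq_zero.1 e1.symm
    rw [eq_bot_iff]
    intro x hx
    rw [Submodule.mem_bot]
    apply hw
    funext i
    exact hall n x hx i (by have := i.2; omega)
  have hdim : ∀ j, j ≤ n → Module.finrank F (K j) ≤ r - j := by
    intro j
    induction j with
    | zero =>
      intro _
      have := Submodule.finrank_le (K 0)
      rwa [Module.finrank_fin_fun] at this
    | succ j ih =>
      intro hj
      have ih := ih (by omega)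
      by_cases heq : K (j + 1) = K j
      · rw [heq, hstep j (by omega) heq, finrank_bot]
        omega
      · have h1 := Submodule.finrank_lt_finrank_of_lt (lt_of_le_of_ne (hle j) heq)
        omega
  have hKr : K r = ⊥ := by
    have h1 := hdim r hr
    rw [Nat.sub_self, Nat.le_zero] at h1
    exact Submodule.finrank_eq_zero.1 h1
  obtain ⟨x, hx0, hx⟩ := Matrix.exists_mulVec_eq_zero_iff.2 hdet
  apply hx0
  have : x ∈ K r := by
    intro i hi
    have h1 := congrFun hx ⟨i, hi⟩
    exact h1
  rw [hKr, Submodule.mem_bot] at this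
  exact this

/-- matrix solutions with independent columns are invertible -/
theorem wlem : S_W := by
  intro hstar R _ _ _ θ hθ n A Φ hΦ hc
  classical
  have hthm : ∀ {m k : ℕ} (M : Matrix (Fin m) (Fin k) R) (x : Fin k → R),
      θ ∘ (M.mulVec x) = (M.map θ).mulVec x + M.mulVec (θ ∘ x) := by
    intro m k M x
    refine theta_mulVec θ (map_add θ) (map_zero θ) (fun a b => ?_) M x
    rw [Derivation.leibniz, smul_eq_mul, smul_eq_mul]
    ring
  let W : Submodule R (Fin n →₀ R) :=
    { carrier := {w | Φ.mulVec w = 0}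
      add_mem' := by
        intro x y hx hy
        change Φ.mulVec (⇑x + ⇑y) = 0
        rw [Matrix.mulVec_add, hx, hy, add_zero]
      zero_mem' := by
        change Φ.mulVec 0 = 0
        exact Matrix.mulVec_zero _
      smul_mem' := by
        intro c x hx
        change Φ.mulVec (c • ⇑x) = 0
        rw [Matrix.mulVec_smul, hx, smul_zero] }
  have hst : ∀ w ∈ W, w.mapRange θ (map_zero θ) ∈ W := by
    intro w hw
    change Φ.mulVec (θ ∘ w) = 0
    have hw' : Φ.mulVec w = 0 := hw
    have e1 := hthm Φ w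
    rw [hw', hΦ, ← Matrix.mulVec_mulVec, hw', Matrix.mulVec_zero, zero_add] at e1
    rw [← e1]
    funext i
    exact map_zero θ
  have hW : ∀ w ∈ W, w = 0 := by
    intro w hw
    have h1 := hstar R θ hθ (Fin n) W hst w hw
    have h2 : {u : Fin n →₀ R | u ∈ W ∧ ∀ k, ∃ c : ℂ, u k = algebraMap ℂ R c} ⊆ {0} := by
      rintro u ⟨hu, huc⟩
      choose c hcc using huc
      have h3 : Φ.mulVec (algebraMap ℂ R ∘ c) = 0 := by
        have : (algebraMap ℂ R ∘ c) = ⇑u := by
          funext k
          exact (hcc k).symm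
        rw [this]
        exact hu
      have h4 := hc c h3
      rw [Set.mem_singleton_iff]
      ext k
      rw [hcc, h4, Pi.zero_apply, map_zero, Finsupp.zero_apply]
    have h3 := Submodule.span_mono h2 h1
    rwa [Submodule.span_zero_singleton, Submodule.mem_bot] at h3
  have hdet : Φ.det ≠ 0 := by
    intro h0
    obtain ⟨x, hx0, hx⟩ := Matrix.exists_mulVec_eq_zero_iff.2 h0
    apply hx0
    have h1 := hW (Finsupp.equivFunOnFinite.symm x) (by
      change Φ.mulVec (⇑(Finsupp.equivFunOnFinite.symm x)) = 0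
      exact hx)
    have h2 := congrArg (fun f : Fin n →₀ R => (⇑f : Fin n → R)) h1
    exact h2
  let I : Ideal R :=
    { carrier := {a | ∃ Ψ : Matrix (Fin n) (Fin n) R, Φ * Ψ = a • (1 : Matrix (Fin n) (Fin n) R)}
      add_mem' := by
        rintro a b ⟨Ψ, h⟩ ⟨Ψ', h'⟩
        exact ⟨Ψ + Ψ', by rw [Matrix.mul_add, h, h', add_smul]⟩
      zero_mem' := ⟨0, by rw [Matrix.mul_zero, zero_smul]⟩
      smul_mem' := by
        rintro c a ⟨Ψ, h⟩
        exact ⟨c • Ψ, by rw [Matrix.mul_smul, h, smul_smul, smul_eq_mul]⟩ }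
  have hI : I = ⊤ := by
    apply hθ.simple
    · intro h0
      have h1 : Φ.det ∈ I := ⟨Φ.adjugate, Matrix.mul_adjugate Φ⟩
      rw [h0] at h1
      exact hdet h1
    · rintro a ⟨Ψ, h⟩
      refine ⟨Ψ.map θ + Ψ * A, ?_⟩
      have e1 : (Φ * Ψ).map θ = Φ.map θ * Ψ + Φ * Ψ.map θ := by
        ext i j
        simp only [Matrix.map_apply, Matrix.mul_apply, map_sum, Derivation.leibniz, smul_eq_mul,
          Matrix.add_apply]
        rw [← Finset.sum_add_distrib]
        exact Finset.sum_congr rfl fun k _ => by ring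
      have e2 : (a • (1 : Matrix (Fin n) (Fin n) R)).map θ = θ a • (1 : Matrix (Fin n) (Fin n) R) := by
        ext i j
        by_cases hij : i = j
        · subst hij
          simp
        · simp [hij]
      rw [h, e2, hΦ, Matrix.mul_assoc, h, Matrix.mul_smul, Matrix.mul_one] at e1
      rw [Matrix.mul_add, ← Matrix.mul_assoc, h, Matrix.smul_mul, Matrix.one_mul, e1]
      abel
  have h1 : (1 : R) ∈ I := by
    rw [hI]
    exact Submodule.mem_top
  obtain ⟨Ψ, h⟩ := h1
  exact ⟨Ψ, by rw [h, one_smul]⟩

end Pool.Agent.E8helper31.AZ
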