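import Mathlib
import Pool.Agent.E8helper42.AZ.Stm

/-!
# Several blocks (statement `S_ML` of the project AZ)
-/

set_option autoImplicit false

namespace Pool.Agent.E8helper31.AZ

open Matrix Pool.Agent.E8helper42.AZ

section sl

variable {F : Type} [Field F] [CharZero F] {n : ℕ}

/-- matrix units -/
abbrev EE (F : Type) [Field F] {n : ℕ} (a b : Fin n) : Matrix (Fin n) (Fin n) F := Matrix.single a b 1

omit [CharZero F] in
theorem EE_mul_same (a b c : Fin n) : EE F a b * EE F b c = EE F a c := by
  rw [Matrix.single_mul_single_same, mul_one]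

omit [CharZero F] in
theorem EE_mul_ne (a b c d : Fin n) (h : b ≠ c) : EE F a b * EE F c d = 0 := by
  rw [Matrix.single_mul_single_of_ne]
  exact h

theorem sl_le (J : Submodule F (Matrix (Fin n) (Fin n) F))
    (hJ : ∀ M ∈ J, ∀ N, N * M - M * N ∈ J) {Z : Matrix (Fin n) (Fin n) F} (hZ : Z ∈ J)
    (hZ2 : (∃ a b, a ≠ b ∧ Z a b ≠ 0) ∨ ∃ a b, Z a a ≠ Z b b) :
    (∀ a b, a ≠ b → EE F a b ∈ J) ∧ ∀ M : Matrix (Fin n) (Fin n) F, M.trace = 0 → M ∈ J := by
  -- one matrix unit
  have h1 : ∃ a b, a ≠ b ∧ EE F a b ∈ J := by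
    have hoff : ∀ {Z : Matrix (Fin n) (Fin n) F}, Z ∈ J → ∀ a b, a ≠ b → Z a b ≠ 0 →
        EE F b a ∈ J := by
      intro Z hZ a b hab h0
      have e1 := hJ _ (hJ _ hZ (EE F b a)) (EE F b a)
      have e2 : EE F b a * (EE F b a * Z - Z * EE F b a) - (EE F b a * Z - Z * EE F b a) * EE F b a
          = (-(2 * Z a b)) • EE F b a := by
        have e3 : EE F b a * EE F b a = 0 := EE_mul_ne _ _ _ _ hab
        have e4 : EE F b a * Z * EE F b a = (Z a b) • EE F b a := by
          rw [Matrix.single_mul_mul_single, Matrix.smul_single]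
          simp
        have e5 : EE F b a * (EE F b a * Z - Z * EE F b a) -
            (EE F b a * Z - Z * EE F b a) * EE F b a =
            (EE F b a * EE F b a) * Z - (2 : F) • (EE F b a * Z * EE F b a) +
              Z * (EE F b a * EE F b a) := by
          rw [two_smul]
          noncomm_ring
        rw [e5, e3, e4, Matrix.zero_mul, Matrix.mul_zero, smul_smul, zero_sub, add_zero, neg_smul]
      rw [e2] at e1
      have e6 := J.smul_mem (-(2 * Z a b))⁻¹ e1
      rwa [smul_smul, inv_mul_cancel₀ (neg_ne_zero.2 (mul_ne_zero two_ne_zero h0)), one_smul] at e6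
    rcases hZ2 with ⟨a, b, hab, h0⟩ | ⟨a, b, h0⟩
    · exact ⟨b, a, hab.symm, hoff hZ a b hab h0⟩
    · have hab : a ≠ b := by
        rintro rfl
        exact h0 rfl
      have e1 := hJ _ hZ (EE F a b)
      refine ⟨b, a, hab.symm, hoff e1 a b hab ?_⟩
      rw [Matrix.sub_apply, Matrix.single_mul_apply_same, Matrix.mul_single_apply_same, one_mul,
        mul_one]
      exact fun h => h0 (sub_eq_zero.1 h).symm
  obtain ⟨a, b, hab, hE⟩ := h1
  have hba : EE F b a ∈ J := by
    have e1 := hJ _ hE (EE F b a)
    rw [EE_mul_same, EE_mul_same] at e1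
    have e2 := hJ _ e1 (EE F b a)
    have e3 : EE F b a * (EE F b b - EE F a a) - (EE F b b - EE F a a) * EE F b a =
        (-2 : F) • EE F b a := by
      rw [Matrix.mul_sub, Matrix.sub_mul, EE_mul_same, EE_mul_same, EE_mul_ne _ _ _ _ hab,
        EE_mul_ne _ _ _ _ hab]
      rw [neg_smul, two_smul]
      abel
    rw [e3] at e2
    have e6 := J.smul_mem (-2 : F)⁻¹ e2
    rwa [smul_smul, inv_mul_cancel₀ (neg_ne_zero.2 two_ne_zero), one_smul] at e6
  have hcb : ∀ c, c ≠ b → EE F c b ∈ J := by
    intro c hc
    by_cases hca : c = a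
    · rw [hca]; exact hE
    · have e1 := hJ _ hE (EE F c a)
      rwa [EE_mul_same, EE_mul_ne _ _ _ _ hc.symm, sub_zero] at e1
  have hall : ∀ c d, c ≠ d → EE F c d ∈ J := by
    intro c d hcd
    by_cases hc : c = b
    · rw [hc]
      by_cases hd : d = a
      · rw [hd]; exact hba
      · have e1 := hJ _ hba (EE F a d)
        rw [EE_mul_ne a d b a (by rw [← hc]; exact hcd.symm), EE_mul_same, zero_sub] at e1
        have e2 := J.neg_mem e1
        rwa [neg_neg] at e2
    · by_cases hd : d = b
      · rw [hd]; exact hcb c hc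
      · have e1 := hJ _ (hcb c hc) (EE F b d)
        rw [EE_mul_ne b d c b hcd.symm, EE_mul_same, zero_sub] at e1
        have e2 := J.neg_mem e1
        rwa [neg_neg] at e2
  refine ⟨hall, fun M hM => ?_⟩
  have hdiag : ∀ c, EE F c c - EE F a a ∈ J := by
    intro c
    by_cases hc : c = a
    · rw [hc, sub_self]; exact J.zero_mem
    · have e1 := hJ _ (hall a c (Ne.symm hc)) (EE F c a)
      rwa [EE_mul_same, EE_mul_same] at e1
  have hM2 : M = ∑ c, ∑ d, M c d • (EE F c d - if c = d then EE F a a else 0) := by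
    have e1 : ∑ c, ∑ d, M c d • (EE F c d - if c = d then EE F a a else 0) =
        ∑ c, ∑ d, Matrix.single c d (M c d) - M.trace • EE F a a := by
      simp only [smul_sub, Finset.sum_sub_distrib]
      congr 1
      · refine Finset.sum_congr rfl fun c _ => Finset.sum_congr rfl fun d _ => ?_
        rw [Matrix.smul_single, smul_eq_mul, mul_one]
      · rw [Matrix.trace, Finset.sum_smul]
        refine Finset.sum_congr rfl fun c _ => ?_
        rw [Finset.sum_eq_single c]
        · rw [if_pos rfl]; rfl
        · intro d _ hd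
          rw [if_neg (Ne.symm hd), smul_zero]
        · intro h
          exact absurd (Finset.mem_univ _) h
    rw [e1, hM, zero_smul, sub_zero]
    exact Matrix.matrix_eq_sum_single M
  rw [hM2]
  refine J.sum_mem fun c _ => J.sum_mem fun d _ => J.smul_mem _ ?_
  split_ifs with hcd
  · rw [← hcd]; exact hdiag c
  · rw [sub_zero]; exact hall c d hcd

end sl

section blocks

variable {ι : Type} {n : ℕ}

theorem ad3 {K : Type} [Field K] (t : K) (X M : Matrix (Fin n) (Fin n) K) (hX : X * X = t • X)
    (v b : Fin n → K) :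
    let P : Matrix (Fin n) (Fin n) K × (Fin n → K) := (X, -X.mulVec b)
    let M1 := X * M - M * X
    let v1 := X.mulVec v - M.mulVec (-X.mulVec b)
    let M2 := X * M1 - M1 * X
    let v2 := X.mulVec v1 - M1.mulVec (-X.mulVec b)
    X * M2 - M2 * X = t ^ 2 • M1 ∧ X.mulVec v2 - M2.mulVec (-X.mulVec b) = t ^ 2 • v1 := by
  intro P M1 v1 M2 v2
  have hXX : ∀ Y : Matrix (Fin n) (Fin n) K, X * (X * Y) = t • (X * Y) := by
    intro Y
    rw [← Matrix.mul_assoc, hX, Matrix.smul_mul]
  constructor
  · simp only [M2, M1, Matrix.mul_sub, Matrix.sub_mul, Matrix.mul_assoc, hXX, hX, Matrix.mul_smul, Matrix.smul_mul,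
      smul_sub, smul_smul]
    module
  · have e1 : ∀ (Y : Matrix (Fin n) (Fin n) K) (u : Fin n → K),
        Y.mulVec (-u) = -Y.mulVec u := fun Y u => Matrix.mulVec_neg _ _
    simp only [v2, M2, v1, M1, Matrix.mulVec_sub, Matrix.sub_mulVec, e1, sub_neg_eq_add,
      Matrix.mulVec_add, Matrix.mulVec_mulVec, Matrix.mul_sub, Matrix.sub_mul, Matrix.mul_assoc,
      hXX, hX, Matrix.mul_smul, Matrix.smul_mul, Matrix.smul_mulVec, Matrix.mulVec_smul, smul_sub, smul_add, smul_smul]
    module

theorem br_add_right {S : Type} [Field S] (x y z : Aff ι n S) : br x (y + z) = br x y + br x z := by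
  funext i
  refine Prod.ext ?_ ?_
  · change (x i).1 * ((y i).1 + (z i).1) - ((y i).1 + (z i).1) * (x i).1 =
      ((x i).1 * (y i).1 - (y i).1 * (x i).1) + ((x i).1 * (z i).1 - (z i).1 * (x i).1)
    rw [Matrix.mul_add, Matrix.add_mul]
    abel
  · change (x i).1.mulVec ((y i).2 + (z i).2) - ((y i).1 + (z i).1).mulVec (x i).2 =
      ((x i).1.mulVec (y i).2 - (y i).1.mulVec (x i).2) +
        ((x i).1.mulVec (z i).2 - (z i).1.mulVec (x i).2)
    rw [Matrix.mulVec_add, Matrix.add_mulVec]
    abel

theorem br_neg {S : Type} [Field S] (x y : Aff ι n S) : br x y = -br y x := by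
  funext i
  refine Prod.ext ?_ ?_
  · change (x i).1 * (y i).1 - (y i).1 * (x i).1 = -((y i).1 * (x i).1 - (x i).1 * (y i).1)
    abel
  · change (x i).1.mulVec (y i).2 - (y i).1.mulVec (x i).2 =
      -((y i).1.mulVec (x i).2 - (x i).1.mulVec (y i).2)
    abel

theorem br_block {S : Type} [Field S] (x y : Aff ι n S) (c : ι → S) :
    br x (fun i => c i • y i) = fun i => c i • br x y i := by
  funext i
  refine Prod.ext ?_ ?_
  · change (x i).1 * (c i • (y i).1) - (c i • (y i).1) * (x i).1 =
      c i • ((x i).1 * (y i).1 - (y i).1 * (x i).1)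
    rw [Matrix.mul_smul, Matrix.smul_mul, smul_sub]
  · change (x i).1.mulVec (c i • (y i).2) - (c i • (y i).1).mulVec (x i).2 =
      c i • ((x i).1.mulVec (y i).2 - (y i).1.mulVec (x i).2)
    rw [Matrix.mulVec_smul, Matrix.smul_mulVec, smul_sub]

theorem br_smul_right {S : Type} [Field S] (x y : Aff ι n S) (c : S) :
    br x (c • y) = c • br x y := br_block x y fun _ => c

theorem br_zero_right {S : Type} [Field S] (x : Aff ι n S) : br x 0 = 0 := by
  have := br_smul_right x 0 0
  rwa [zero_smul, zero_smul] at this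

theorem br_supp {S : Type} [Field S] (x y : Aff ι n S) (j : ι) (h : y j = 0) : br x y j = 0 := by
  refine Prod.ext ?_ ?_
  · change (x j).1 * (y j).1 - (y j).1 * (x j).1 = 0
    rw [h]
    simp
  · change (x j).1.mulVec (y j).2 - (y j).1.mulVec (x j).2 = 0
    rw [h]
    simp

theorem br_amap {F K : Type} [Field F] [Field K] [Algebra F K] (x y : Aff ι n F) :
    br (amap (algebraMap F K) x) (amap (algebraMap F K) y) = amap (algebraMap F K) (br x y) := by
  funext i
  refine Prod.ext ?_ ?_
  · change (x i).1.map (algebraMap F K) * (y i).1.map (algebraMap F K) -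
      (y i).1.map (algebraMap F K) * (x i).1.map (algebraMap F K) =
      ((x i).1 * (y i).1 - (y i).1 * (x i).1).map (algebraMap F K)
    ext a b
    simp [Matrix.mul_apply]
  · change ((x i).1.map (algebraMap F K)).mulVec (algebraMap F K ∘ (y i).2) -
      ((y i).1.map (algebraMap F K)).mulVec (algebraMap F K ∘ (x i).2) =
      algebraMap F K ∘ ((x i).1.mulVec (y i).2 - (y i).1.mulVec (x i).2)
    funext a
    simp [Matrix.mulVec, dotProduct]

theorem br_span {F K : Type} [Field F] [Field K] [Algebra F K] (h : Submodule F (Aff ι n F))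
    (hbr : ∀ x ∈ h, ∀ y ∈ h, br x y ∈ h) {y z : Aff ι n K}
    (hy : y ∈ Submodule.span K (amap (algebraMap F K) '' (h : Set (Aff ι n F))))
    (hz : z ∈ Submodule.span K (amap (algebraMap F K) '' (h : Set (Aff ι n F)))) :
    br y z ∈ Submodule.span K (amap (algebraMap F K) '' (h : Set (Aff ι n F))) := by
  have h1 : ∀ x ∈ h, ∀ z ∈ Submodule.span K (amap (algebraMap F K) '' (h : Set (Aff ι n F))),
      br (amap (algebraMap F K) x) z ∈
        Submodule.span K (amap (algebraMap F K) '' (h : Set (Aff ι n F))) := by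
    intro x hx z hz
    induction hz using Submodule.span_induction with
    | mem z hz =>
      obtain ⟨z', hz', rfl⟩ := hz
      rw [br_amap]
      exact Submodule.subset_span ⟨_, hbr x hx z' hz', rfl⟩
    | zero => rw [br_zero_right]; exact Submodule.zero_mem _
    | add u v _ _ hu hv => rw [br_add_right]; exact Submodule.add_mem _ hu hv
    | smul c u _ hu => rw [br_smul_right]; exact Submodule.smul_mem _ _ hu
  induction hy using Submodule.span_induction with
  | mem y hy =>
    obtain ⟨y', hy', rfl⟩ := hy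
    exact h1 y' hy' z hz
  | zero => rw [br_neg, br_zero_right, neg_zero]; exact Submodule.zero_mem _
  | add u v _ _ hu hv =>
    rw [br_neg, br_add_right, neg_add, ← br_neg, ← br_neg]
    exact Submodule.add_mem _ hu hv
  | smul c u _ hu =>
    rw [br_neg, br_smul_right, ← smul_neg, ← br_neg]
    exact Submodule.smul_mem _ _ hu

/-- descent by functionals -/
theorem amap_mem {F K : Type} [Field F] [Field K] [Algebra F K] (h : Submodule F (Aff ι n F))
    {z : Aff ι n K} (hz : z ∈ Submodule.span K (amap (algebraMap F K) '' (h : Set (Aff ι n F)))) :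
    ∀ l : K →ₗ[F] F, amap l z ∈ h := by
  induction hz using Submodule.span_induction with
  | mem z hz =>
    intro l
    obtain ⟨x, hx, rfl⟩ := hz
    have e1 : amap l (amap (algebraMap F K) x) = l 1 • x := by
      have e2 : ∀ a : F, l (algebraMap F K a) = l 1 * a := by
        intro a
        rw [Algebra.algebraMap_eq_smul_one, map_smul, smul_eq_mul, mul_comm]
      funext i
      refine Prod.ext ?_ ?_
      · ext a b
        exact e2 _
      · funext a
        exact e2 _
    rw [e1]
    exact h.smul_mem _ hx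
  | zero =>
    intro l
    have e1 : amap l (0 : Aff ι n K) = 0 := by
      funext i
      refine Prod.ext ?_ ?_
      · ext a b
        exact map_zero l
      · funext a
        exact map_zero l
    rw [e1]
    exact h.zero_mem
  | add u v _ _ hu hv =>
    intro l
    have e1 : amap l (u + v) = amap l u + amap l v := by
      funext i
      refine Prod.ext ?_ ?_
      · ext a b
        exact map_add l _ _
      · funext a
        exact map_add l _ _
    rw [e1]
    exact h.add_mem (hu l) (hv l)
  | smul c u _ hu =>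
    intro l
    have e1 : amap l (c • u) = amap (l ∘ₗ LinearMap.mulLeft F c) u := by
      funext i
      refine Prod.ext ?_ ?_
      · ext a b
        rfl
      · funext a
        rfl
    rw [e1]
    exact hu _

/-- an element supported in one block -/
theorem exists_block [Fintype ι] [DecidableEq ι] {F K : Type} [Field F] [CharZero F] [Field K]
    [Algebra F K] (h : Submodule F (Aff ι n F)) (hn : 2 ≤ n)
    (hbr : ∀ x ∈ h, ∀ y ∈ h, br x y ∈ h)
    (hproj : ∀ (i : ι) (M : Matrix (Fin n) (Fin n) F), ∃ x ∈ h, (x i).1 = M)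
    (t : ι → ℚ) (f φ b : ι → Fin n → K) (ht : ∀ i, 0 < t i) (htinj : Function.Injective t)
    (hφ : ∀ i, φ i ⬝ᵥ f i = 1)
    (hP : (fun i => ((t i : K) • Matrix.vecMulVec (f i) (φ i),
      -((t i : K) • (Matrix.vecMulVec (f i) (φ i)).mulVec (b i))) : Aff ι n K) ∈
        Submodule.span K (amap (algebraMap F K) '' (h : Set (Aff ι n F)))) (m : ι) :
    ∃ x ∈ h, (∀ j, j ≠ m → x j = 0) ∧
      ((∃ a b, a ≠ b ∧ (x m).1 a b ≠ 0) ∨ ∃ a b, (x m).1 a a ≠ (x m).1 b b) := by
  classical
  have hcK : CharZero K := charZero_of_injective_algebraMap (algebraMap F K).injective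
  set hK := Submodule.span K (amap (algebraMap F K) '' (h : Set (Aff ι n F))) with hhK
  set P : Aff ι n K := (fun i => ((t i : K) • Matrix.vecMulVec (f i) (φ i),
      -((t i : K) • (Matrix.vecMulVec (f i) (φ i)).mulVec (b i)))) with hPdef
  have hXX : ∀ i, ((t i : K) • Matrix.vecMulVec (f i) (φ i)) * ((t i : K) •
      Matrix.vecMulVec (f i) (φ i)) = (t i : K) • ((t i : K) • Matrix.vecMulVec (f i) (φ i)) := by
    intro i
    rw [Matrix.smul_mul, Matrix.mul_smul, Matrix.vecMulVec_mul_vecMulVec, hφ, one_smul]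
  have hT3 : ∀ z : Aff ι n K, br P (br P (br P z)) = fun i => (t i : K) ^ 2 • br P z i := by
    intro z
    funext i
    obtain ⟨h1, h2⟩ := ad3 (t i : K) _ (z i).1 (hXX i) (z i).2 (b i)
    have e1 : P i = ((t i : K) • Matrix.vecMulVec (f i) (φ i),
      -((t i : K) • Matrix.vecMulVec (f i) (φ i)).mulVec (b i)) := by
      rw [hPdef, Matrix.smul_mulVec]
    refine Prod.ext ?_ ?_
    · change (P i).1 * ((P i).1 * ((P i).1 * (z i).1 - (z i).1 * (P i).1) -
        ((P i).1 * (z i).1 - (z i).1 * (P i).1) * (P i).1) -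
        ((P i).1 * ((P i).1 * (z i).1 - (z i).1 * (P i).1) -
        ((P i).1 * (z i).1 - (z i).1 * (P i).1) * (P i).1) * (P i).1 =
        (t i : K) ^ 2 • ((P i).1 * (z i).1 - (z i).1 * (P i).1)
      rw [e1]
      exact h1
    · change (P i).1.mulVec ((P i).1.mulVec ((P i).1.mulVec (z i).2 - (z i).1.mulVec (P i).2) -
        ((P i).1 * (z i).1 - (z i).1 * (P i).1).mulVec (P i).2) -
        ((P i).1 * ((P i).1 * (z i).1 - (z i).1 * (P i).1) -
        ((P i).1 * (z i).1 - (z i).1 * (P i).1) * (P i).1).mulVec (P i).2 =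
        (t i : K) ^ 2 • ((P i).1.mulVec (z i).2 - (z i).1.mulVec (P i).2)
      rw [e1]
      exact h2
  -- a vector in the kernel
  obtain ⟨w, hw0, hwφ⟩ : ∃ w : Fin n → K, w ≠ 0 ∧ φ m ⬝ᵥ w = 0 := by
    let a : Fin n := ⟨0, by omega⟩
    let a' : Fin n := ⟨1, by omega⟩
    have haa : a ≠ a' := by
      intro h
      have := congrArg Fin.val h
      simp [a, a'] at this
    by_cases h0 : φ m a = 0
    · refine ⟨Pi.single a 1, ?_, ?_⟩
      · intro h1
        have := congrFun h1 a
        simp at this
      · rw [dotProduct_single, h0, zero_mul]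
    · refine ⟨Pi.single a (φ m a') - Pi.single a' (φ m a), ?_, ?_⟩
      · intro h1
        have h2 := congrFun h1 a'
        rw [Pi.sub_apply, Pi.single_eq_same, Pi.single_eq_of_ne haa.symm, zero_sub,
          Pi.zero_apply] at h2
        exact h0 (neg_eq_zero.1 h2)
      · rw [dotProduct_sub, dotProduct_single, dotProduct_single]
        ring
  -- an element with given matrix part
  obtain ⟨y, hy, hym⟩ : ∃ y ∈ hK, (y m).1 = Matrix.vecMulVec w (φ m) := by
    choose X hX hX2 using fun a b => hproj m (EE F a b)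
    refine ⟨∑ a, ∑ b, (Matrix.vecMulVec w (φ m) a b) • amap (algebraMap F K) (X a b),
      Submodule.sum_mem _ fun a _ => Submodule.sum_mem _ fun b _ => Submodule.smul_mem _ _
        (Submodule.subset_span ⟨_, hX a b, rfl⟩), ?_⟩
    simp only [Finset.sum_apply, Prod.fst_sum, Pi.smul_apply, Prod.smul_fst]
    conv_rhs => rw [Matrix.matrix_eq_sum_single (Matrix.vecMulVec w (φ m))]
    refine Finset.sum_congr rfl fun a _ => Finset.sum_congr rfl fun b _ => ?_
    change _ • (X a b m).1.map (algebraMap F K) = _
    rw [hX2, Matrix.map_single, map_one, Matrix.smul_single, smul_eq_mul, mul_one]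
  -- induction
  have key : ∀ s : Finset ι, m ∉ s → ∃ (z : Aff ι n K) (c : K), z ∈ hK ∧
      br P (br P z) = (fun i => (t i : K) ^ 2 • z i) ∧ (z m).1 = c • Matrix.vecMulVec w (φ m) ∧
      c ≠ 0 ∧ ∀ j ∈ s, z j = 0 := by
    intro s
    induction s using Finset.induction_on with
    | empty =>
      intro _
      refine ⟨br P y, -(t m : K), br_span h hbr hP hy, hT3 y, ?_, ?_, by simp⟩
      · change ((t m : K) • Matrix.vecMulVec (f m) (φ m)) * (y m).1 -
          (y m).1 * ((t m : K) • Matrix.vecMulVec (f m) (φ m)) = _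
        rw [hym, Matrix.smul_mul, Matrix.mul_smul, Matrix.vecMulVec_mul_vecMulVec,
          Matrix.vecMulVec_mul_vecMulVec, hwφ, hφ, zero_smul, one_smul, neg_smul]
        have : Matrix.vecMulVec (f m) (0 : Fin n → K) = 0 := by
          ext a b
          simp [Matrix.vecMulVec_apply]
        rw [this, smul_zero, zero_sub]
      · rw [neg_ne_zero]
        exact_mod_cast (ht m).ne'
    | insert j s hj ih =>
      intro hm
      rw [Finset.mem_insert, not_or] at hm
      obtain ⟨z, c, h1, h2, h3, h4, h5⟩ := ih hm.2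
      have hz' : (fun i => ((t i : K) ^ 2 - (t j : K) ^ 2) • z i) =
          br P (br P z) - ((t j : K) ^ 2) • z := by
        rw [h2]
        funext i
        rw [Pi.sub_apply, Pi.smul_apply, sub_smul]
      refine ⟨fun i => ((t i : K) ^ 2 - (t j : K) ^ 2) • z i,
        ((t m : K) ^ 2 - (t j : K) ^ 2) * c, ?_, ?_, ?_, ?_, ?_⟩
      · rw [hz']
        exact Submodule.sub_mem _ (br_span h hbr hP (br_span h hbr hP h1))
          (Submodule.smul_mem _ _ h1)
      · rw [br_block, br_block, h2]
        funext i
        rw [smul_comm]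
      · change ((t m : K) ^ 2 - (t j : K) ^ 2) • (z m).1 = _
        rw [h3, smul_smul]
      · refine mul_ne_zero ?_ h4
        have h6 : t m ^ 2 - t j ^ 2 ≠ 0 := by
          intro h7
          have h8 : (t m - t j) * (t m + t j) = 0 := by linear_combination h7
          rcases mul_eq_zero.1 h8 with h9 | h9
          · exact hm.1 (htinj (sub_eq_zero.1 h9))
          · have := ht m
            have := ht j
            linarith
        exact_mod_cast h6
      · intro i hi
        rcases Finset.mem_insert.1 hi with rfl | hi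
        · change ((t i : K) ^ 2 - (t i : K) ^ 2) • z i = 0
          rw [sub_self, zero_smul]
        · change ((t i : K) ^ 2 - (t j : K) ^ 2) • z i = 0
          rw [h5 i hi, smul_zero]
  obtain ⟨z, c, hz, -, hzm, hc, hzj⟩ := key (Finset.univ.erase m) (Finset.notMem_erase _ _)
  have hzj' : ∀ j, j ≠ m → z j = 0 := fun j hj =>
    hzj j (Finset.mem_erase.2 ⟨hj, Finset.mem_univ _⟩)
  have hsupp : ∀ l : K →ₗ[F] F, ∀ j, j ≠ m → amap l z j = 0 := by
    intro l j hj
    refine Prod.ext ?_ ?_
    · ext a b
      change l ((z j).1 a b) = 0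
      rw [hzj' j hj]
      exact map_zero l
    · funext a
      change l ((z j).2 a) = 0
      rw [hzj' j hj]
      exact map_zero l
  -- the matrix is not scalar
  have hns : (∃ a b, a ≠ b ∧ (z m).1 a b ≠ 0) ∨ ∃ a b, (z m).1 a a ≠ (z m).1 b b := by
    by_contra hcon
    push Not at hcon
    obtain ⟨hc1, hc2⟩ := hcon
    obtain ⟨a, ha⟩ := Function.ne_iff.1 hw0
    have hφ0 : φ m ≠ 0 := by
      intro h0
      have := hφ m
      rw [h0, zero_dotProduct] at this
      exact zero_ne_one this
    obtain ⟨b', hb'⟩ := Function.ne_iff.1 hφ0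
    have hne : (z m).1 a b' ≠ 0 := by
      rw [hzm, Matrix.smul_apply, Matrix.vecMulVec_apply, smul_eq_mul]
      exact mul_ne_zero hc (mul_ne_zero ha hb')
    have hab : a = b' := by
      by_contra hne2
      exact hne (hc1 a b' hne2)
    rw [← hab] at hne
    have htr : ∑ d, (z m).1 d d = 0 := by
      have e1 : ∀ d, (z m).1 d d = c * (φ m d * w d) := by
        intro d
        rw [hzm, Matrix.smul_apply, Matrix.vecMulVec_apply, smul_eq_mul, mul_comm (w d)]
      rw [Finset.sum_congr rfl fun d _ => e1 d, ← Finset.mul_sum]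
      change c * (φ m ⬝ᵥ w) = 0
      rw [hwφ, mul_zero]
    rw [Finset.sum_congr rfl fun d _ => hc2 d a, Finset.sum_const, Finset.card_univ,
      Fintype.card_fin, nsmul_eq_mul] at htr
    rcases mul_eq_zero.1 htr with h0 | h0
    · have : (n : K) ≠ 0 := Nat.cast_ne_zero.2 (by omega)
      exact this h0
    · exact hne h0
  rcases hns with ⟨a, b', hab, h0⟩ | ⟨a, b', h0⟩
  · obtain ⟨l, hl⟩ : ∃ l : K →ₗ[F] F, l ((z m).1 a b') ≠ 0 := by
      by_contra hcon
      push Not at hcon
      exact h0 ((Module.forall_dual_apply_eq_zero_iff F _).1 hcon)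
    exact ⟨amap l z, amap_mem h hz l, hsupp l, Or.inl ⟨a, b', hab, hl⟩⟩
  · obtain ⟨l, hl⟩ : ∃ l : K →ₗ[F] F, l ((z m).1 a a - (z m).1 b' b') ≠ 0 := by
      by_contra hcon
      push Not at hcon
      exact h0 (sub_eq_zero.1 ((Module.forall_dual_apply_eq_zero_iff F _).1 hcon))
    refine ⟨amap l z, amap_mem h hz l, hsupp l, Or.inr ⟨a, b', ?_⟩⟩
    rw [map_sub, sub_ne_zero] at hl
    exact hl

end blocks

/-- **Several blocks** -/
theorem mlem : S_ML := by
  intro n ι _ _ F K _ _ _ _ θ A g h hn hbr hnab hproj hP hno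
  classical
  obtain ⟨t, f, φ, b, ht, htinj, hφ, hPmem⟩ := hP
  -- the part in one block
  have hblock : ∀ (m : ι) (x : Matrix (Fin n) (Fin n) F × (Fin n → F)), x.1.trace = 0 →
      Pi.single m x ∈ h := by
    intro m
    obtain ⟨x0, hx0, hx0s, hx0n⟩ := exists_block h hn hbr hproj t f φ b ht htinj hφ hPmem m
    let J : Submodule F (Matrix (Fin n) (Fin n) F) :=
      { carrier := {M | ∃ x ∈ h, (∀ j, j ≠ m → x j = 0) ∧ (x m).1 = M}
        add_mem' := by
          rintro M N ⟨x, hx, hxs, rfl⟩ ⟨y, hy, hys, rfl⟩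
          refine ⟨x + y, h.add_mem hx hy, fun j hj => ?_, rfl⟩
          rw [Pi.add_apply, hxs j hj, hys j hj, add_zero]
        zero_mem' := ⟨0, h.zero_mem, fun _ _ => rfl, rfl⟩
        smul_mem' := by
          rintro c M ⟨x, hx, hxs, rfl⟩
          refine ⟨c • x, h.smul_mem c hx, fun j hj => ?_, rfl⟩
          rw [Pi.smul_apply, hxs j hj, smul_zero] }
    have hJ : ∀ M ∈ J, ∀ N, N * M - M * N ∈ J := by
      rintro M ⟨x, hx, hxs, rfl⟩ N
      obtain ⟨y, hy, rfl⟩ := hproj m N
      exact ⟨br y x, hbr y hy x hx, fun j hj => br_supp y x j (hxs j hj), rfl⟩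
    obtain ⟨hE, hsl⟩ := sl_le J hJ (Z := (x0 m).1) ⟨x0, hx0, hx0s, rfl⟩ hx0n
    -- the translations
    have hV : ∀ v : Fin n → F, ∃ x ∈ h, (∀ j, j ≠ m → x j = 0) ∧ x m = (0, v) := by
      by_cases hV : ∃ x ∈ h, (∀ j, j ≠ m → x j = 0) ∧ (x m).1 = 0 ∧ (x m).2 ≠ 0
      · obtain ⟨x1, hx1, hx1s, hx11, hx12⟩ := hV
        let V : Submodule F (Fin n → F) :=
          { carrier := {v | ∃ x ∈ h, (∀ j, j ≠ m → x j = 0) ∧ x m = (0, v)}
            add_mem' := by
              rintro u v ⟨x, hx, hxs, hxm⟩ ⟨y, hy, hys, hym⟩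
              refine ⟨x + y, h.add_mem hx hy, fun j hj => ?_, ?_⟩
              · rw [Pi.add_apply, hxs j hj, hys j hj, add_zero]
              · rw [Pi.add_apply, hxm, hym, Prod.mk_add_mk, add_zero]
            zero_mem' := ⟨0, h.zero_mem, fun _ _ => rfl, rfl⟩
            smul_mem' := by
              rintro c v ⟨x, hx, hxs, hxm⟩
              refine ⟨c • x, h.smul_mem c hx, fun j hj => ?_, ?_⟩
              · rw [Pi.smul_apply, hxs j hj, smul_zero]
              · rw [Pi.smul_apply, hxm, Prod.smul_mk, smul_zero] }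
        have hst : ∀ M ∈ J, ∀ v ∈ V, M.mulVec v ∈ V := by
          rintro M ⟨x, hx, hxs, rfl⟩ v ⟨y, hy, hys, hym⟩
          refine ⟨br x y, hbr x hx y hy, fun j hj => br_supp x y j (hys j hj), ?_⟩
          refine Prod.ext ?_ ?_
          · change (x m).1 * (y m).1 - (y m).1 * (x m).1 = 0
            rw [hym, Matrix.mul_zero, Matrix.zero_mul, sub_zero]
          · change (x m).1.mulVec (y m).2 - (y m).1.mulVec (x m).2 = _
            rw [hym, Matrix.zero_mulVec, sub_zero]
        have hv : (x1 m).2 ∈ V := ⟨x1, hx1, hx1s, by rw [← hx11]⟩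
        obtain ⟨a, ha⟩ := Function.ne_iff.1 hx12
        have hEv : ∀ (c d : Fin n) (v : Fin n → F), (EE F c d).mulVec v = v d • Pi.single c 1 := by
          intro c d v
          rw [Matrix.single_mulVec]
          funext e
          by_cases he : e = c
          · subst he
            simp
          · simp [he]
        have hsing1 : ∀ c, c ≠ a → (Pi.single c 1 : Fin n → F) ∈ V := by
          intro c hc
          have e1 := hst _ (hE c a hc) _ hv
          rw [hEv] at e1
          have e2 := V.smul_mem ((x1 m).2 a)⁻¹ e1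
          rwa [smul_smul, inv_mul_cancel₀ ha, one_smul] at e2
        obtain ⟨a', haa'⟩ : ∃ a' : Fin n, a' ≠ a := by
          have : Nontrivial (Fin n) := Fin.nontrivial_iff_two_le.2 hn
          exact exists_ne a
        have hsing : ∀ c, (Pi.single c 1 : Fin n → F) ∈ V := by
          intro c
          by_cases hc : c = a
          · have e1 := hst _ (hE a a' haa'.symm) _ (hsing1 a' haa')
            rw [hEv, Pi.single_eq_same, one_smul] at e1
            rwa [hc]
          · exact hsing1 c hc
        intro v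
        have hvV : v ∈ V := by
          have e1 : v = ∑ c, v c • (Pi.single c 1 : Fin n → F) := by
            conv_lhs => rw [← Finset.univ_sum_single v]
            refine Finset.sum_congr rfl fun c _ => ?_
            rw [← Pi.single_smul, smul_eq_mul, mul_one]
          rw [e1]
          exact V.sum_mem fun c _ => V.smul_mem _ (hsing c)
        exact hvV
      · exfalso
        push Not at hV
        obtain ⟨x1, hx1, hx11⟩ := hproj m 1
        -- the vector parts
        have hform : ∀ y ∈ h, (∀ j, j ≠ m → y j = 0) → (y m).2 = (y m).1.mulVec (x1 m).2 := by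
          intro y hy hys
          have e1 := hV (br x1 y) (hbr x1 hx1 y hy) (fun j hj => br_supp x1 y j (hys j hj)) (by
            change (x1 m).1 * (y m).1 - (y m).1 * (x1 m).1 = 0
            rw [hx11, Matrix.one_mul, Matrix.mul_one, sub_self])
          change (x1 m).1.mulVec (y m).2 - (y m).1.mulVec (x1 m).2 = 0 at e1
          rw [hx11, Matrix.one_mulVec] at e1
          exact sub_eq_zero.1 e1
        set u : Fin n → F := (x1 m).2 with hu
        have hann : ∀ M ∈ J, M.mulVec (θ ∘ u + g m - (A m).mulVec u) = 0 := by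
          rintro M ⟨y, hy, hys, rfl⟩
          have hs2 : ∀ j, j ≠ m → nab θ A g y j = 0 := by
            intro j hj
            have h0 := hys j hj
            refine Prod.ext ?_ ?_
            · change (y j).1.map θ + (y j).1 * A j - A j * (y j).1 = 0
              rw [h0]
              ext a b
              simp
            · change θ ∘ (y j).2 - (A j).mulVec (y j).2 + (y j).1.mulVec (g j) = 0
              rw [h0]
              funext a
              simp
          have e1 := hform _ (hnab y hy) hs2
          change θ ∘ (y m).2 - (A m).mulVec (y m).2 + (y m).1.mulVec (g m) =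
            ((y m).1.map θ + (y m).1 * A m - A m * (y m).1).mulVec u at e1
          have e2 : θ ∘ ((y m).1.mulVec u) = ((y m).1.map θ).mulVec u + (y m).1.mulVec (θ ∘ u) := by
            funext a
            simp only [Function.comp_apply, Matrix.mulVec, dotProduct, Pi.add_apply, map_sum,
              Derivation.leibniz, smul_eq_mul, Matrix.map_apply]
            rw [← Finset.sum_add_distrib]
            refine Finset.sum_congr rfl fun c _ => ?_
            ring
          rw [hform y hy hys, e2, Matrix.sub_mulVec, Matrix.add_mulVec] at e1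
          simp only [Matrix.mulVec_mulVec] at e1
          rw [Matrix.mulVec_sub, Matrix.mulVec_add, Matrix.mulVec_mulVec]
          have e3 : (y m).1.mulVec (θ ∘ u) + (y m).1.mulVec (g m) - ((y m).1 * A m).mulVec u
              = (((y m).1.map θ).mulVec u + (y m).1.mulVec (θ ∘ u) - (A m * (y m).1).mulVec u +
                (y m).1.mulVec (g m)) - (((y m).1.map θ).mulVec u +
                ((y m).1 * A m).mulVec u - (A m * (y m).1).mulVec u) := by
            abel
          rw [e3, e1, sub_self]
        have hzero : θ ∘ u + g m - (A m).mulVec u = 0 := by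
          funext d
          obtain ⟨c, hc⟩ : ∃ c : Fin n, c ≠ d := by
            have : Nontrivial (Fin n) := Fin.nontrivial_iff_two_le.2 hn
            exact exists_ne d
          have e1 := congrFun (hann _ (hE c d hc)) c
          rw [Matrix.single_mulVec] at e1
          simpa using e1
        apply hno m
        refine ⟨-u, ?_⟩
        have e1 : θ ∘ (-u) = -(θ ∘ u) := by
          funext a
          exact map_neg θ _
        rw [e1, Matrix.mulVec_neg]
        have e2 : -(θ ∘ u) = -((A m).mulVec u) + g m - (θ ∘ u + g m - (A m).mulVec u) := by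
          abel
        rw [e2, hzero, sub_zero]
    intro x hx
    obtain ⟨y, hy, hys, hym⟩ := hsl x.1 hx
    obtain ⟨z, hz, hzs, hzm⟩ := hV (x.2 - (y m).2)
    have e1 : Pi.single m x = y + z := by
      funext j
      by_cases hj : j = m
      · subst hj
        rw [Pi.single_eq_same, Pi.add_apply, hzm]
        refine Prod.ext ?_ ?_
        · change x.1 = (y j).1 + 0
          rw [hym, add_zero]
        · change x.2 = (y j).2 + (x.2 - (y j).2)
          abel
      · rw [Pi.single_eq_of_ne hj, Pi.add_apply, hys j hj, hzs j hj, add_zero]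
    rw [e1]
    exact h.add_mem hy hz
  intro x hx
  rw [← Finset.univ_sum_single x]
  exact h.sum_mem fun m _ => hblock m _ (hx m)

end Pool.Agent.E8helper31.AZ
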